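import Mathlib

/-! Freeze-Tag in normed planes: definitions. -/

namespace Pool.Agent.MP_1037db_co

/-- The multiset of node labels of a binary tree. -/
def labels {α : Type} : BinaryTree α → Multiset α
  | .nil => 0
  | .node a l r => a ::ₘ (labels l + labels r)

/-- Largest total edge length of a downward path that starts at the point `v`, goes to the root of
the tree and continues to a leaf; node `i` sits at `p i`, the edge `u w` has length `η (w - u)`. -/
noncomputable def span {α : Type} (η : ℝ × ℝ → ℝ) (p : α → ℝ × ℝ) : ℝ × ℝ → BinaryTree α → ℝ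
  | _, .nil => 0
  | v, .node i l r => η (p i - v) + max (span η p (p i) l) (span η p (p i) r)

/-- Half the perimeter of a largest parallelogram inscribed in the unit disk. -/
noncomputable def Lam (η : ℝ × ℝ → ℝ) : ℝ :=
  sSup {s | ∃ u v : ℝ × ℝ, η u ≤ 1 ∧ η v ≤ 1 ∧ s = η (u + v) + η (u - v)}

end Pool.Agent.MP_1037db_co
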