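import Pool.Agent.MP_1037db_co.Defs

/-! Two-step paths in a half disk are no longer than `Lam`. -/

namespace Pool.Agent.MP_1037db_co

variable (η : Seminorm ℝ (ℝ × ℝ))

def det (a b : ℝ × ℝ) : ℝ := a.1 * b.2 - a.2 * b.1

lemma le_Lam {u v : ℝ × ℝ} (hu : η u ≤ 1) (hv : η v ≤ 1) : η (u + v) + η (u - v) ≤ Lam η := by
  apply le_csSup
  · refine ⟨4, ?_⟩
    rintro s ⟨u, v, hu, hv, rfl⟩
    have := map_add_le_add η u v
    have := map_sub_le_add η u v
    linarith
  · exact ⟨u, v, hu, hv, rfl⟩

lemma smul_nn {c : ℝ} (hc : 0 ≤ c) (x : ℝ × ℝ) : η (c • x) = c * η x := by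
  rw [map_smul_eq_mul, Real.norm_of_nonneg hc]

lemma two_le_Lam {a : ℝ × ℝ} (ha : η a = 1) : 2 ≤ Lam η := by
  have h := le_Lam η ha.le ha.le
  rw [← two_smul ℝ a, smul_nn η (by norm_num), sub_self, map_zero, ha] at h
  linarith

lemma comb_le {c d : ℝ} (hc : 0 ≤ c) (hd : 0 ≤ d) (x y : ℝ × ℝ) :
    η (c • x + d • y) ≤ c * η x + d * η y := by
  rw [← smul_nn η hc, ← smul_nn η hd]; exact map_add_le_add η _ _

/-- monotonicity of chords -/
lemma mono {a x y : ℝ × ℝ} {l m : ℝ} (ha : η a = 1) (hy : η y = 1) (hx : η x ≤ 1) (hl : 0 ≤ l)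
    (hm : 0 ≤ m) (e : y = l • x - m • a) : η (y - x) ≤ η (x + a) := by
  have hs : 1 ≤ l + m := by
    have h : η y ≤ l * η x + m * η (-a) := by
      rw [e, sub_eq_add_neg, ← smul_neg]; exact comb_le η hl hm _ _
    rw [map_neg_eq_map, ha, hy] at h
    nlinarith
  have h1 : (l + m) * η (y - x) ≤ (l + m - 1) * 1 + m * η (x + a) := by
    have : (l + m) • (y - x) = (l + m - 1) • y + m • (-(x + a)) := by
      rw [e]; module
    have h := comb_le η (show 0 ≤ l + m - 1 by linarith) hm y (-(x + a))
    rw [← this, smul_nn η (by linarith), map_neg_eq_map, hy] at h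
    exact h
  have h2 : (l + m) * 1 ≤ l * η (x + a) + 1 * 1 := by
    have : (l + m) • a = l • (x + a) + (1 : ℝ) • (-y) := by rw [e]; module
    have h := comb_le η hl zero_le_one (x + a) (-y)
    rw [← this, smul_nn η (by linarith), map_neg_eq_map, ha, hy] at h
    exact h
  have h3 : (l + m) * η (y - x) ≤ (l + m) * η (x + a) := by nlinarith
  exact le_of_mul_le_mul_left h3 (by linarith)

lemma key {a x : ℝ × ℝ} {t : ℝ} (ha : η a = 1) (hx : η x ≤ 1) (ht0 : 0 ≤ t) (ht1 : t ≤ 1)
    (hA : η (x - a) - 1 ≤ t) : η (x - a) + η (x + t • a) ≤ Lam η := by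
  set A := η (x - a) with hAd
  set C := η (x + t • a) with hCd
  set B := η (x + a) with hBd
  by_cases hCB : C ≤ B
  · have := le_Lam η hx ha.le
    linarith
  push Not at hCB
  have hB0 : 0 ≤ B := apply_nonneg η _
  have hC0 : 0 < C := by linarith
  have ht1' : t < 1 := by
    rcases ht1.lt_or_eq with h | h
    · exact h
    · exfalso; rw [hCd, h, one_smul] at hCB; exact lt_irrefl _ hCB
  -- convexity: values to the left of t are at least C
  have left : ∀ s, s ≤ t → C ≤ η (x + s • a) := by
    intro s hs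
    have e : (1 - s) • (x + t • a) = (1 - t) • (x + s • a) + (t - s) • (x + a) := by module
    have h := comb_le η (show 0 ≤ 1 - t by linarith) (show 0 ≤ t - s by linarith) (x + s • a) (x + a)
    rw [← e, smul_nn η (by linarith), ← hCd, ← hBd] at h
    by_contra hc
    push Not at hc
    nlinarith
  have hC1 : C ≤ 1 := by
    have := left 0 ht0
    rw [zero_smul, add_zero] at this
    linarith
  set v := C⁻¹ • (x + t • a) with hv
  have hv1 : η v ≤ 1 := by
    rw [hv, smul_nn η (by positivity), ← hCd, inv_mul_cancel₀ hC0.ne']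
  have h1 : 1 + C ≤ η (x + v) := by
    have e : x + v = ((1 + C) / C) • (x + (t / (1 + C)) • a) := by
      rw [hv]; match_scalars <;> field_simp <;> ring
    have h := left (t / (1 + C)) (div_le_self ht0 (by linarith))
    rw [e, smul_nn η (by positivity)]
    calc 1 + C = (1 + C) / C * C := by field_simp
      _ ≤ _ := mul_le_mul_of_nonneg_left h (by positivity)
  have h2 : A - 1 ≤ η (x - v) := by
    have e : (t + 1 - C) • a = C • (-(x - v)) + (1 - C) • (-(x - a)) := by
      rw [hv]; match_scalars <;> field_simp <;> ring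
    have h := comb_le η hC0.le (show 0 ≤ 1 - C by linarith) (-(x - v)) (-(x - a))
    rw [← e, smul_nn η (by linarith), map_neg_eq_map, map_neg_eq_map, ha, ← hAd] at h
    have h' : C * (A - 1) ≤ C * η (x - v) := by nlinarith
    exact le_of_mul_le_mul_left h' hC0
  have := le_Lam η hx hv1
  linarith

lemma diam {a x : ℝ × ℝ} {s : ℝ} (ha : η a = 1) (hx : η x ≤ 1) (hs0 : -1 ≤ s) (hs1 : s ≤ 1) :
    η (x - s • a) + min (η (x - a)) (η (s • a - a)) ≤ Lam η := by
  have e : η (s • a - a) = 1 - s := by
    have : s • a - a = (1 - s) • (-a) := by module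
    rw [this, smul_nn η (by linarith), map_neg_eq_map, ha, mul_one]
  rw [e]
  have hm1 := min_le_left (η (x - a)) (1 - s)
  have hm2 := min_le_right (η (x - a)) (1 - s)
  rcases le_total 0 s with h | h
  · have h1 := map_sub_le_add η x (s • a)
    rw [smul_nn η h, ha] at h1
    have := two_le_Lam η ha
    linarith
  · have e2 : x - s • a = x + (-s) • a := by module
    rw [e2]
    by_cases hA : η (x - a) - 1 ≤ -s
    · have := key η ha hx (by linarith) (by linarith) hA
      linarith
    · push Not at hA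
      have hA2 : η (x - a) ≤ 2 := by
        have := map_sub_le_add η x a
        linarith
      have h1 := key η ha hx (t := η (x - a) - 1) (by linarith) (by linarith) le_rfl
      have h2 : η (x + (-s) • a) ≤ η (x + (η (x - a) - 1) • a) + (η (x - a) - 1 + s) := by
        have e3 : x + (-s) • a = (x + (η (x - a) - 1) • a) - (η (x - a) - 1 + s) • a := by module
        have h3 := map_sub_le_add η (x + (η (x - a) - 1) • a) ((η (x - a) - 1 + s) • a)
        rw [smul_nn η (by linarith), ha, mul_one, ← e3] at h3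
        exact h3
      linarith

lemma on_line {a y : ℝ × ℝ} (ha : η a = 1) (h : det a y = 0) : ∃ s : ℝ, y = s • a := by
  have ha0 : a ≠ 0 := by
    rintro rfl
    simp at ha
  unfold det at h
  by_cases h1 : a.1 = 0
  · have h2 : a.2 ≠ 0 := fun h2 => ha0 (Prod.ext h1 h2)
    refine ⟨y.2 / a.2, Prod.ext ?_ ?_⟩
    · simp only [Prod.smul_fst, smul_eq_mul]
      field_simp; linarith
    · simp only [Prod.smul_snd, smul_eq_mul]; field_simp
  · refine ⟨y.1 / a.1, Prod.ext ?_ ?_⟩
    · simp only [Prod.smul_fst, smul_eq_mul]; field_simp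
    · simp only [Prod.smul_snd, smul_eq_mul]
      field_simp; linarith

lemma diam' {a x y : ℝ × ℝ} (ha : η a = 1) (hx : η x ≤ 1) (hy : η y ≤ 1) (h : det a y = 0) :
    η (x - y) + min (η (x - a)) (η (y - a)) ≤ Lam η := by
  obtain ⟨s, rfl⟩ := on_line η ha h
  rw [map_smul_eq_mul, ha, mul_one, Real.norm_eq_abs] at hy
  exact diam η ha hx (abs_le.mp hy).1 (abs_le.mp hy).2

lemma arc {a x y : ℝ × ℝ} {σ : ℝ} (ha : η a = 1) (hx : η x = 1) (hy : η y = 1)
    (h1 : 0 < σ * det a x) (h2 : 0 < σ * det a y) (h3 : 0 ≤ σ * det x y) :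
    η (x - y) + η (x - a) ≤ Lam η := by
  have hm := mono η (l := (σ * det a y) / (σ * det a x)) (m := (σ * det x y) / (σ * det a x))
    ha hy hx.le (by positivity) (by positivity) (by
      have hσ : σ ≠ 0 := by rintro rfl; simp at h1
      have hd : det a x ≠ 0 := by intro h; simp [h] at h1
      ext
      · simp only [Prod.fst_sub, Prod.smul_fst, smul_eq_mul]
        field_simp
        unfold det; ring
      · simp only [Prod.snd_sub, Prod.smul_snd, smul_eq_mul]
        field_simp
        unfold det; ring)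
  have := le_Lam η hx.le ha.le
  rw [map_sub_rev η x y]
  linarith

lemma bdry {a x y : ℝ × ℝ} {σ : ℝ} (hσ : σ ≠ 0) (ha : η a = 1) (hx : η x ≤ 1) (hy : η y ≤ 1)
    (h1 : 0 ≤ σ * det a x) (h2 : 0 ≤ σ * det a y)
    (bx : η x = 1 ∨ σ * det a x = 0) (by' : η y = 1 ∨ σ * det a y = 0) :
    η (x - y) + min (η (x - a)) (η (y - a)) ≤ Lam η := by
  rcases h2.eq_or_lt with h2 | h2
  · exact diam' η ha hx hy ((mul_eq_zero.mp h2.symm).resolve_left hσ)
  rcases h1.eq_or_lt with h1 | h1
  · rw [map_sub_rev η x y, min_comm]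
    exact diam' η ha hy hx ((mul_eq_zero.mp h1.symm).resolve_left hσ)
  have hx1 := bx.resolve_right h1.ne'
  have hy1 := by'.resolve_right h2.ne'
  rcases le_total 0 (σ * det x y) with h | h
  · have := arc η ha hx1 hy1 h1 h2 h
    have := min_le_left (η (x - a)) (η (y - a))
    linarith
  · have := arc η ha hy1 hx1 h2 h1 (by unfold det at h ⊢; linarith)
    have := min_le_right (η (x - a)) (η (y - a))
    rw [map_sub_rev η x y]
    linarith

lemma extend (hη : ∀ x, η x = 0 → x = 0) {a y d : ℝ × ℝ} {σ : ℝ} (hd : d ≠ 0) (hy : η y ≤ 1)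
    (h2 : 0 ≤ σ * det a y) : ∃ t : ℝ, 0 ≤ t ∧ η (y + t • d) ≤ 1 ∧ 0 ≤ σ * det a (y + t • d) ∧
      (η (y + t • d) = 1 ∨ σ * det a (y + t • d) = 0) := by
  have hd0 : 0 < η d := lt_of_le_of_ne (apply_nonneg η d) (fun h => hd (hη d h.symm))
  have c1 : Continuous fun t : ℝ => η (y + t • d) := by
    have : LipschitzWith (η d).toNNReal fun t : ℝ => η (y + t • d) := by
      apply LipschitzWith.of_dist_le_mul
      intro s t
      rw [Real.dist_eq, Real.dist_eq, Real.coe_toNNReal _ hd0.le]
      have h := abs_sub_map_le_sub η (y + s • d) (y + t • d)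
      have e : y + s • d - (y + t • d) = (s - t) • d := by module
      rw [e, map_smul_eq_mul, Real.norm_eq_abs] at h
      linarith
    exact this.continuous
  have c2 : Continuous fun t : ℝ => -(σ * det a (y + t • d)) := by
    unfold det; fun_prop
  have c : Continuous fun t : ℝ => max (η (y + t • d) - 1) (-(σ * det a (y + t • d))) :=
    (c1.sub continuous_const).max c2
  have hT : 0 ≤ 2 / η d := by positivity
  have := intermediate_value_Icc hT c.continuousOn
  have hmem : (0 : ℝ) ∈ Set.Icc (max (η (y + (0 : ℝ) • d) - 1) (-(σ * det a (y + (0 : ℝ) • d))))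
      (max (η (y + (2 / η d) • d) - 1) (-(σ * det a (y + (2 / η d) • d)))) := by
    constructor
    · rw [zero_smul, add_zero]
      exact max_le (by linarith) (by linarith)
    · apply le_max_of_le_left
      have h := map_sub_le_add η (y + (2 / η d) • d) y
      rw [add_sub_cancel_left, smul_nn η hT, div_mul_cancel₀ _ hd0.ne'] at h
      linarith
  obtain ⟨t, ht, he⟩ := this hmem
  simp only at he
  have g1 := le_max_left (η (y + t • d) - 1) (-(σ * det a (y + t • d)))
  have g2 := le_max_right (η (y + t • d) - 1) (-(σ * det a (y + t • d)))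
  refine ⟨t, ht.1, by linarith, by linarith, ?_⟩
  rcases max_choice (η (y + t • d) - 1) (-(σ * det a (y + t • d))) with h | h
  · left; linarith
  · right; linarith

theorem half_two (hη : ∀ x, η x = 0 → x = 0) {a x y : ℝ × ℝ} {σ : ℝ} (hσ : σ ≠ 0) (ha : η a = 1)
    (hx : η x ≤ 1) (hy : η y ≤ 1) (h1 : 0 ≤ σ * det a x) (h2 : 0 ≤ σ * det a y) :
    η (x - y) + min (η (x - a)) (η (y - a)) ≤ Lam η := by
  by_cases hxy : x = y
  · subst hxy
    have := map_sub_le_add η x a
    have := two_le_Lam η ha
    rw [sub_self, map_zero, min_self]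
    linarith
  obtain ⟨s, hs, xs1, xs2, xs3⟩ := extend η hη (sub_ne_zero.mpr hxy) hx h1
  obtain ⟨t, ht, yt1, yt2, yt3⟩ := extend η hη (sub_ne_zero.mpr (Ne.symm hxy)) hy h2
  have h := bdry η hσ ha xs1 yt1 xs2 yt2 xs3 yt3
  have e : x + s • (x - y) - (y + t • (y - x)) = (1 + s + t) • (x - y) := by module
  rw [e, smul_nn η (by linarith)] at h
  have hD := apply_nonneg η (x - y)
  have g1 : η (x - a) ≤ η (x + s • (x - y) - a) + s * η (x - y) := by
    have h3 := map_sub_le_add η (x + s • (x - y) - a) (s • (x - y))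
    rw [smul_nn η hs] at h3
    have e3 : x + s • (x - y) - a - s • (x - y) = x - a := by module
    rwa [e3] at h3
  have g2 : η (y - a) ≤ η (y + t • (y - x) - a) + t * η (x - y) := by
    have h3 := map_sub_le_add η (y + t • (y - x) - a) (t • (y - x))
    rw [smul_nn η ht, map_sub_rev η y x] at h3
    have e3 : y + t • (y - x) - a - t • (y - x) = y - a := by module
    rwa [e3] at h3
  have m1 := min_le_left (η (x - a)) (η (y - a))
  have m2 := min_le_right (η (x - a)) (η (y - a))
  have p1 := mul_nonneg hs hD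
  have p2 := mul_nonneg ht hD
  rcases min_choice (η (x + s • (x - y) - a)) (η (y + t • (y - x) - a)) with h4 | h4 <;>
    rw [h4] at h <;> nlinarith

end Pool.Agent.MP_1037db_co
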