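import Pool.Agent.MP_1037db_co.J.John

/-! The lower bound: four points that span a largest parallelogram. -/

namespace Pool.Agent.MP_1037db_co

variable {η : Seminorm ℝ (ℝ × ℝ)} {α : Type} {p : α → ℝ × ℝ}

theorem span_nn (T : BinaryTree α) : ∀ v, 0 ≤ span η p v T := by
  induction T with
  | nil => exact fun _ => le_rfl
  | node i l r h _ => exact fun v => add_nonneg (apply_nonneg η _) ((h _).trans (le_max_left _ _))

theorem le_span (T : BinaryTree α) : ∀ v y, y ∈ labels T → η (p y - v) ≤ span η p v T := by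
  induction T with
  | nil => exact fun _ _ h => absurd h (Multiset.notMem_zero _)
  | node i l r h1 h2 =>
    intro v y h
    have t := map_add_le_add η (p y - p i) (p i - v)
    rw [sub_add_sub_cancel] at t
    have a := le_max_left (span η p (p i) l) (span η p (p i) r)
    have b := le_max_right (span η p (p i) l) (span η p (p i) r)
    rw [labels, Multiset.mem_cons, Multiset.mem_add] at h
    rw [span]
    rcases h with rfl | h | h
    · linarith [span_nn (η := η) (p := p) l (p y)]
    · linarith [h1 (p i) y h]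
    · linarith [h2 (p i) y h]

/-- a tree with two labels contains a path with two edges -/
theorem two_span (T : BinaryTree α) (h : 2 ≤ (labels T).card) (hd : (labels T).Nodup) (v : ℝ × ℝ) :
    ∃ x ∈ labels T, ∃ y ∈ labels T, x ≠ y ∧ η (p x - v) + η (p y - p x) ≤ span η p v T := by
  cases T with
  | nil => simp [labels] at h
  | node i l r =>
    rw [labels] at h hd ⊢
    rw [Multiset.card_cons] at h
    obtain ⟨y, hy⟩ := Multiset.card_pos_iff_exists_mem.1 (show 0 < (labels l + labels r).card by omega)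
    refine ⟨i, Multiset.mem_cons_self _ _, y, Multiset.mem_cons_of_mem hy,
      fun e => (Multiset.nodup_cons.1 hd).1 (e ▸ hy), add_le_add_right ?_ _⟩
    rcases Multiset.mem_add.1 hy with g | g
    · exact (le_span l _ y g).trans (le_max_left _ _)
    · exact (le_span r _ y g).trans (le_max_right _ _)

theorem unit_le (hη : ∀ x, η x = 0 → x = 0) {u : ℝ × ℝ} (hu : η u ≤ 1) (v : ℝ × ℝ) :
    ∃ w, η w = 1 ∧ η (u + v) + η (u - v) ≤ η (w + v) + η (w - v) := by
  obtain ⟨w, hw, c, c0, rfl⟩ : ∃ w, η w = 1 ∧ ∃ c : ℝ, 0 ≤ c ∧ u = c • w := by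
    have key : ∀ x : ℝ × ℝ, x ≠ 0 → η ((η x)⁻¹ • x) = 1 := fun x hx => by
      rw [smul_nn η (inv_nonneg.2 (apply_nonneg η x)), inv_mul_cancel₀ fun e => hx (hη x e)]
    rcases eq_or_ne u 0 with rfl | h
    · exact ⟨_, key (1, 0) (by simp), 0, le_rfl, (zero_smul _ _).symm⟩
    · exact ⟨_, key u h, η u, apply_nonneg η u, by
        rw [smul_smul, mul_inv_cancel₀ fun e => h (hη u e), one_smul]⟩
  rw [smul_nn η c0, hw, mul_one] at hu
  have a := comb_le η (c := (1 + c) / 2) (d := (1 - c) / 2) (by linarith) (by linarith) (w + v) (-(w - v))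
  have b := comb_le η (c := (1 + c) / 2) (d := (1 - c) / 2) (by linarith) (by linarith) (w - v) (-(w + v))
  rw [map_neg_eq_map] at a b
  rw [show ((1 + c) / 2) • (w + v) + ((1 - c) / 2) • -(w - v) = c • w + v by module] at a
  rw [show ((1 + c) / 2) • (w - v) + ((1 - c) / 2) • -(w + v) = c • w - v by module] at b
  exact ⟨w, hw, by linarith⟩

theorem exists_Lam (hη : ∀ x, η x = 0 → x = 0) :
    ∃ u v, η u = 1 ∧ η v = 1 ∧ Lam η ≤ η (u + v) + η (u - v) := by
  obtain ⟨m, m0, hm⟩ := J.sn_low η hη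
  have hc : IsCompact {x : ℝ × ℝ | η x ≤ 1} :=
    Metric.isCompact_of_isClosed_isBounded (isClosed_le (J.sn_cont η) continuous_const)
      (isBounded_iff_forall_norm_le.2 ⟨1 / m, fun x hx => (le_div_iff₀' m0).2 ((hm x).trans hx)⟩)
  obtain ⟨z, hz, hM⟩ := (hc.prod hc).exists_isMaxOn (f := fun z => η (z.1 + z.2) + η (z.1 - z.2))
    ⟨(0, 0), by simp⟩ (((J.sn_cont η).comp (by fun_prop)).add
      ((J.sn_cont η).comp (by fun_prop))).continuousOn
  obtain ⟨u, hu, a⟩ := unit_le hη hz.1 z.2
  obtain ⟨v, hv, b⟩ := unit_le hη hz.2 u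
  rw [add_comm z.2, add_comm v, map_sub_rev η z.2, map_sub_rev η v] at b
  refine ⟨u, v, hu, hv, le_trans (csSup_le ⟨_, 0, 0, by simp, by simp, rfl⟩ ?_) (a.trans b)⟩
  rintro s ⟨x, y, hx, hy, rfl⟩
  exact hM (show (x, y) ∈ _ from ⟨hx, hy⟩)

theorem lower (hη : ∀ x, η x = 0 → x = 0) : ∃ p : Fin 4 → ℝ × ℝ, (∀ i, η (p i) ≤ 1) ∧
    ∀ T : BinaryTree (Fin 4), labels T = Finset.univ.val → 1 + Lam η ≤ span η p 0 T := by
  obtain ⟨u, v, hu, hv, hL⟩ := exists_Lam hη
  have h1 : ∀ i, η (![u, v, -u, -v] i) = 1 := fun i => by fin_cases i <;> simp [hu, hv]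
  refine ⟨_, fun i => (h1 i).le, fun T hT => ?_⟩
  have d1 : η (u + u) = 2 := by rw [← two_smul ℝ u, smul_nn η zero_le_two, hu, mul_one]
  have d2 : η (v + v) = 2 := by rw [← two_smul ℝ v, smul_nn η zero_le_two, hv, mul_one]
  have d3 := map_add_le_add η u v
  have d4 := map_sub_le_add η u v
  have e1 : η (v + u) = η (u + v) := by rw [add_comm]
  have e2 : η (v - u) = η (u - v) := map_sub_rev η _ _
  have e3 : ∀ x y, η (-x - y) = η (x + y) := fun x y => by rw [← map_neg_eq_map]; congr 1; abel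
  have e4 : ∀ x y, η (-x + y) = η (x - y) := fun x y => by rw [← map_neg_eq_map]; congr 1; abel
  have key : ∀ a x y : Fin 4, x ≠ a → y ≠ a → x ≠ y → Lam η ≤
      η (![u, v, -u, -v] x - ![u, v, -u, -v] a) + η (![u, v, -u, -v] y - ![u, v, -u, -v] x) := by
    intro a x y
    fin_cases a <;> fin_cases x <;> fin_cases y <;> simp [e1, e2, e3, e4, d1, d2] <;> linarith
  cases T with
  | nil => simpa [labels] using congrArg Multiset.card hT
  | node a l r =>
    have hc := congrArg Multiset.card hT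
    have hd : (labels (.node a l r)).Nodup := hT ▸ Finset.univ.nodup
    rw [labels] at hc hd
    rw [Multiset.nodup_cons, Multiset.nodup_add, Multiset.mem_add, not_or] at hd
    simp only [Multiset.card_cons, Multiset.card_add, Finset.card_val, Finset.card_fin] at hc
    rw [span, sub_zero, h1]
    refine add_le_add_right ?_ _
    rcases le_or_gt 2 (labels l).card with c | c
    · obtain ⟨x, hx, y, hy, n, g⟩ := two_span (η := η) (p := ![u, v, -u, -v]) l c hd.2.1 _
      exact ((key a x y (fun e => hd.1.1 (e ▸ hx)) (fun e => hd.1.1 (e ▸ hy)) n).trans g).trans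
        (le_max_left _ _)
    · obtain ⟨x, hx, y, hy, n, g⟩ := two_span (η := η) (p := ![u, v, -u, -v]) r (by omega) hd.2.2.1 _
      exact ((key a x y (fun e => hd.1.2 (e ▸ hx)) (fun e => hd.1.2 (e ▸ hy)) n).trans g).trans
        (le_max_right _ _)

end Pool.Agent.MP_1037db_co
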