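import Pool.Agent.MP_1037db_co.Geo

/-! Halving lines through the origin and wake-up trees for at most seven robots. -/

namespace Pool.Agent.MP_1037db_co

variable (η : Seminorm ℝ (ℝ × ℝ))

lemma one_tree {α : Type} (p : α → ℝ × ℝ) (v : ℝ × ℝ) (M : ℝ) (hM : 0 ≤ M) (R : Multiset α)
    (hc : R.card ≤ 1) (h : ∀ y ∈ R, η (p y - v) ≤ M) :
    ∃ T : BinaryTree α, labels T = R ∧ span η p v T ≤ M := by
  rcases Nat.le_one_iff_eq_zero_or_eq_one.mp hc with h0 | h1
  · exact ⟨.nil, by simp [labels, Multiset.card_eq_zero.mp h0], by simpa [span] using hM⟩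
  · obtain ⟨y, rfl⟩ := Multiset.card_eq_one.mp h1
    exact ⟨.node y .nil .nil, by simp [labels], by simpa [span] using h y (by simp)⟩

lemma split_two {α : Type} (R : Multiset α) (hc : R.card ≤ 2) :
    ∃ R1 R2 : Multiset α, R1 + R2 = R ∧ R1.card ≤ 1 ∧ R2.card ≤ 1 := by
  induction R using Multiset.induction_on with
  | empty => exact ⟨0, 0, by simp, by simp, by simp⟩
  | cons a s _ => exact ⟨{a}, s, by simp, by simp, by simpa using hc⟩

lemma three_tree (hη : ∀ x, η x = 0 → x = 0) {α : Type} [DecidableEq α] (p : α → ℝ × ℝ)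
    {a : ℝ × ℝ} {σ r : ℝ} (hσ : σ ≠ 0) (ha : η a = 1) (hr0 : 0 ≤ r) (hr1 : r ≤ 1) (S : Finset α)
    (hc : S.card ≤ 3) (h : ∀ i ∈ S, η (p i) ≤ 1 ∧ 0 ≤ σ * det a (p i)) :
    ∃ T : BinaryTree α, labels T = S.val ∧ r + span η p (r • a) T ≤ 1 + Lam η := by
  have hL := two_le_Lam η ha
  rcases S.eq_empty_or_nonempty with rfl | hne
  · exact ⟨.nil, by simp [labels], by simp only [span]; linarith⟩
  obtain ⟨c, hcS, hmin⟩ := S.exists_min_image (fun i => η (p i - a)) hne
  have hc2 : (S.erase c).val.card ≤ 2 := by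
    have := Finset.card_erase_of_mem hcS
    change (S.erase c).card ≤ 2
    omega
  obtain ⟨R1, R2, hR, h1, h2⟩ := split_two _ hc2
  have hca : η (p c - a) ≤ 2 := by
    have := map_sub_le_add η (p c) a
    have := (h c hcS).1
    linarith
  have hb : ∀ y ∈ (S.erase c).val, η (p y - p c) ≤ Lam η - η (p c - a) := by
    intro y hy
    have hyS : y ∈ S := Finset.mem_of_mem_erase hy
    have := half_two η hη hσ ha (h y hyS).1 (h c hcS).1 (h y hyS).2 (h c hcS).2
    rw [min_eq_right (hmin y hyS)] at this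
    linarith
  obtain ⟨T1, l1, s1⟩ := one_tree η p (p c) (Lam η - η (p c - a)) (by linarith) R1 h1
    (fun y hy => hb y (by rw [← hR]; exact Multiset.mem_add.mpr (Or.inl hy)))
  obtain ⟨T2, l2, s2⟩ := one_tree η p (p c) (Lam η - η (p c - a)) (by linarith) R2 h2
    (fun y hy => hb y (by rw [← hR]; exact Multiset.mem_add.mpr (Or.inr hy)))
  refine ⟨.node c T1 T2, ?_, ?_⟩
  · rw [labels, l1, l2, hR, Finset.erase_val, Multiset.cons_erase hcS]
  · rw [span]
    have h3 : η (p c - r • a) ≤ η (p c - a) + (1 - r) := by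
      have h4 := map_add_le_add η (p c - a) ((1 - r) • a)
      rw [smul_nn η (by linarith), ha, mul_one] at h4
      have e : p c - a + (1 - r) • a = p c - r • a := by module
      rwa [e] at h4
    have := max_le s1 s2
    linarith

lemma comb : ∀ n ≤ 7, 0 < n → ∀ s : Fin n → Bool, ∃ j : Fin n,
    (Finset.univ.filter fun i => (j < i ∧ s i = true) ∨ (i < j ∧ s i = false)).card ≤ 3 ∧
    (Finset.univ.filter fun i => (j < i ∧ s i = false) ∨ (i < j ∧ s i = true)).card ≤ 3 := by
  intro n hn h0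
  interval_cases n <;> decide +kernel

noncomputable def kap (q : ℝ × ℝ) : ℝ := -q.1 / (|q.1| + q.2)

lemma kap_det {q w : ℝ × ℝ} (hq : 0 ≤ q.2) (hw : 0 ≤ w.2) (hq0 : q ≠ 0) (hw0 : w ≠ 0)
    (h : kap q ≤ kap w) : 0 ≤ det q w := by
  have pos : ∀ q : ℝ × ℝ, 0 ≤ q.2 → q ≠ 0 → 0 < |q.1| + q.2 := by
    intro q hq hq0
    by_contra hc
    push Not at hc
    have h1 := abs_nonneg q.1
    apply hq0
    exact Prod.ext (abs_eq_zero.mp (by linarith)) (by simp only [Prod.snd_zero]; linarith)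
  unfold kap at h
  rw [div_le_div_iff₀ (pos q hq hq0) (pos w hw hw0)] at h
  unfold det
  rcases le_total 0 q.1 with h1 | h1 <;> rcases le_total 0 w.1 with h2 | h2
  · rw [abs_of_nonneg h1, abs_of_nonneg h2] at h; nlinarith
  · nlinarith [mul_nonneg h1 hw, mul_nonneg hq (neg_nonneg.mpr h2)]
  · rw [abs_of_nonpos h1, abs_of_nonneg h2] at h
    nlinarith [mul_nonneg (neg_nonneg.mpr h1) hw, mul_nonneg hq h2,
      mul_nonneg (neg_nonneg.mpr h1) h2]
  · rw [abs_of_nonpos h1, abs_of_nonpos h2] at h; nlinarith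

lemma polar (x : ℝ × ℝ) : ∃ (q : ℝ × ℝ) (c : ℝ), 0 ≤ q.2 ∧ q ≠ 0 ∧ x = c • q := by
  by_cases h : x = 0
  · exact ⟨(0, 1), 0, by simp, by simp, by simp [h]⟩
  · rcases le_total 0 x.2 with h2 | h2
    · exact ⟨x, 1, h2, h, by simp⟩
    · exact ⟨-x, -1, by simpa using h2, neg_ne_zero.mpr h, by simp⟩

lemma det_smul (a b : ℝ) (x y : ℝ × ℝ) : det (a • x) (b • y) = a * b * det x y := by
  simp only [det, Prod.smul_fst, Prod.smul_snd, smul_eq_mul]; ring

lemma det_swap (x y : ℝ × ℝ) : det x y = -det y x := by unfold det; ring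

theorem seven (hη : ∀ x, η x = 0 → x = 0) (n : ℕ) (hn : n ≤ 7) (p : Fin n → ℝ × ℝ)
    (hp : ∀ i, η (p i) ≤ 1) : ∃ T : BinaryTree (Fin n), labels T = Finset.univ.val ∧
      span η p 0 T ≤ 1 + Lam η := by
  have pos : ∀ q : ℝ × ℝ, q ≠ 0 → 0 < η q := fun q hq =>
    lt_of_le_of_ne (apply_nonneg η q) (fun h => hq (hη q h.symm))
  rcases Nat.eq_zero_or_pos n with rfl | h0
  · refine ⟨.nil, by simp [labels], ?_⟩
    have h := le_Lam η (u := 0) (v := 0) (by simp) (by simp)
    simp only [add_zero, map_zero, sub_self] at h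
    simp only [span]; linarith
  choose q c hq2 hq0 hx using fun i => polar (p i)
  let τ := Tuple.sort fun i => kap (q i)
  have hτ : Monotone fun i => kap (q (τ i)) := Tuple.monotone_sort fun i => kap (q i)
  have hdet : ∀ i j, i < j → 0 ≤ det (q (τ i)) (q (τ j)) := fun i j hij =>
    kap_det (hq2 _) (hq2 _) (hq0 _) (hq0 _) (hτ hij.le)
  obtain ⟨j, hj1, hj2⟩ := comb n hn h0 fun i => decide (0 ≤ c (τ i))
  set S1 := Finset.univ.filter fun i => (j < i ∧ decide (0 ≤ c (τ i)) = true) ∨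
    (i < j ∧ decide (0 ≤ c (τ i)) = false) with hS1
  set S2 := Finset.univ.filter fun i => (j < i ∧ decide (0 ≤ c (τ i)) = false) ∨
    (i < j ∧ decide (0 ≤ c (τ i)) = true) with hS2
  obtain ⟨σ, hσ, hσc⟩ : ∃ σ : ℝ, σ * σ = 1 ∧ 0 ≤ σ * c (τ j) := by
    rcases le_total 0 (c (τ j)) with h | h
    · exact ⟨1, by simp, by simpa using h⟩
    · exact ⟨-1, by simp, by simpa using h⟩
  have hσ0 : σ ≠ 0 := by rintro rfl; simp at hσ
  have hσa : |σ| = 1 := by
    have : |σ| * |σ| = 1 := by rw [← abs_mul, hσ, abs_one]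
    nlinarith [abs_nonneg σ]
  set N := η (q (τ j)) with hN
  have hNp : 0 < N := pos _ (hq0 _)
  set a := (σ / N) • q (τ j) with had
  have ha : η a = 1 := by
    rw [had, map_smul_eq_mul, Real.norm_eq_abs, abs_div, hσa, abs_of_pos hNp, ← hN]
    field_simp
  set r := σ * c (τ j) * N with hr
  have hr0 : 0 ≤ r := mul_nonneg hσc hNp.le
  have hra : p (τ j) = r • a := by
    rw [hx, had, smul_smul, hr]
    congr 1
    field_simp
    linear_combination (-c (τ j)) * hσ
  have hrp : η (p (τ j)) = r := by rw [hra, smul_nn η hr0, ha, mul_one]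
  have hr1 : r ≤ 1 := hrp ▸ hp _
  have hd : ∀ i, σ * det a (p (τ i)) = c (τ i) * det (q (τ j)) (q (τ i)) / N := by
    intro i
    rw [hx (τ i), had, det_smul]
    field_simp
    linear_combination (c (τ i) * det (q (τ j)) (q (τ i))) * hσ
  obtain ⟨T1, l1, s1⟩ := three_tree η hη p hσ0 ha hr0 hr1 (S1.map τ.toEmbedding)
    (by rwa [Finset.card_map]) (by
      intro i hi
      obtain ⟨k, hk, rfl⟩ := Finset.mem_map.mp hi
      refine ⟨hp _, ?_⟩
      change 0 ≤ σ * det a (p (τ k))
      rw [hd]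
      apply div_nonneg _ hNp.le
      rcases (Finset.mem_filter.mp hk).2 with ⟨h1, h2⟩ | ⟨h1, h2⟩
      · exact mul_nonneg (by simpa using h2) (hdet _ _ h1)
      · have := hdet _ _ h1
        rw [det_swap] at this
        have h3 : c (τ k) < 0 := by simpa using h2
        nlinarith)
  obtain ⟨T2, l2, s2⟩ := three_tree η hη p (neg_ne_zero.mpr hσ0) ha hr0 hr1
    (S2.map τ.toEmbedding) (by rwa [Finset.card_map]) (by
      intro i hi
      obtain ⟨k, hk, rfl⟩ := Finset.mem_map.mp hi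
      refine ⟨hp _, ?_⟩
      change 0 ≤ -σ * det a (p (τ k))
      rw [neg_mul, hd, ← neg_div]
      apply div_nonneg _ hNp.le
      rcases (Finset.mem_filter.mp hk).2 with ⟨h1, h2⟩ | ⟨h1, h2⟩
      · have := hdet _ _ h1
        have h3 : c (τ k) < 0 := by simpa using h2
        nlinarith
      · have := hdet _ _ h1
        rw [det_swap] at this
        have h3 : 0 ≤ c (τ k) := by simpa using h2
        nlinarith)
  refine ⟨.node (τ j) T1 T2, ?_, ?_⟩
  · rw [labels, l1, l2, Finset.map_val, Finset.map_val, ← Multiset.map_add]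
    have e : (j ::ₘ (S1.val + S2.val)) = Finset.univ.val := by
      ext i
      rw [Multiset.count_cons, Multiset.count_add, Multiset.count_eq_of_nodup S1.nodup,
        Multiset.count_eq_of_nodup S2.nodup, Multiset.count_eq_of_nodup Finset.univ.nodup]
      simp only [Finset.mem_val, hS1, hS2, Finset.mem_filter, Finset.mem_univ, true_and, if_true]
      rcases lt_trichotomy i j with h | h | h
      · cases decide (0 ≤ c (τ i)) <;> simp [h, h.ne, not_lt.mpr h.le]
      · simp [h]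
      · cases decide (0 ≤ c (τ i)) <;> simp [h, h.ne', not_lt.mpr h.le]
    have e2 := congrArg (Multiset.map τ) e
    rw [Multiset.map_cons, Multiset.map_univ_val_equiv] at e2
    exact e2
  · rw [span, sub_zero, hrp, hra]
    rcases max_choice (span η p (r • a) T1) (span η p (r • a) T2) with h | h <;> rw [h] <;>
      assumption

end Pool.Agent.MP_1037db_co
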