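import Pool.Agent.MP_1037db_co.Defs

/-! Half of the perimeter of the unit circle of a normed plane. -/

namespace Pool.Agent.MP_1037db_co

/-- The point of the unit circle of `η` in the direction of the angle `t`. -/
noncomputable def dir (η : ℝ × ℝ → ℝ) (t : ℝ) : ℝ × ℝ :=
  (η (Real.cos t, Real.sin t))⁻¹ • (Real.cos t, Real.sin t)

/-- Half of the `η`-length of the unit circle: the supremum of the lengths of the polygonal lines
inscribed in a half circle. -/
noncomputable def Per (η : ℝ × ℝ → ℝ) : ℝ :=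
  sSup {s | ∃ (k : ℕ) (τ : ℕ → ℝ), Monotone τ ∧ τ k ≤ τ 0 + Real.pi ∧
    s = ∑ i ∈ Finset.range k, η (dir η (τ (i + 1)) - dir η (τ i))}

end Pool.Agent.MP_1037db_co
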